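import Pool.Agent.helper82.LB.Spec2
import Pool.Agent.helper82.UM.Core
import Pool.Agent.helper18.UM.RDX
import Pool.Agent.helper20.UM.RDP

/-!
# Project LB (MP_2e0e07_nt), row BIG: infinitely many primes are big
-/

set_option autoImplicit false

open Matrix Polynomial NumberField Pool.Agent.GO Pool.Agent.AR Pool.Agent.RG Pool.Agent.HZ Pool.Agent.DS Pool.Agent.AX
  Pool.Agent.UM Pool.Agent.CH

namespace Pool.Agent.LB

/-! ## The prime field -/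

theorem BIG_pf (p : ℕ) [Fact p.Prime] (κ : Type) [Field κ] [CharP κ p] (x : κ) (h : x ^ p = x) :
    ∃ a : ZMod p, ZMod.castHom (dvd_refl p) κ a = x := by
  have h1 : x ∈ (⊥ : Subfield κ) := (Subfield.mem_bot_iff_pow_eq_self κ p).mpr h
  obtain ⟨n, hn⟩ := (mem_bot_iff_intCast p κ).mp h1
  refine ⟨(n : ZMod p), ?_⟩
  rw [map_intCast]
  exact hn

theorem BIG_c0 (E : Type) [Field E] [NumberField E] (x : 𝓞 E) (hx : x ≠ 0) : (minpoly ℤ x).coeff 0 ≠ 0 := by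
  intro h0
  have hi : IsIntegral ℤ x := Algebra.IsIntegral.isIntegral x
  have hm : (minpoly ℤ x).Monic := minpoly.monic hi
  have h1 : (minpoly ℤ x).divX * X = minpoly ℤ x := by
    have := Polynomial.divX_mul_X_add (minpoly ℤ x)
    rw [h0, C_0, add_zero] at this
    exact this
  have h2 : (minpoly ℤ x).divX.Monic := Polynomial.Monic.of_mul_monic_right Polynomial.monic_X (by rw [h1]; exact hm)
  have h3 : Polynomial.aeval x (minpoly ℤ x).divX = 0 := by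
    have h4 : Polynomial.aeval x ((minpoly ℤ x).divX * X) = 0 := by rw [h1]; exact minpoly.aeval ℤ x
    rw [map_mul, Polynomial.aeval_X] at h4
    exact (mul_eq_zero.mp h4).resolve_right hx
  have h5 := minpoly.min ℤ x h2 h3
  exact absurd (Polynomial.degree_divX_lt hm.ne_zero) (not_lt.mpr h5)

/-- only finitely many characteristics kill a nonzero integer of `E` -/
theorem BIG_bad (E : Type) [Field E] [NumberField E] (x : 𝓞 E) (hx : x ≠ 0) (p : ℕ) (hp : p.Prime)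
    (κ : Type) [Field κ] [CharP κ p] (φ : 𝓞 E →+* κ) (h : φ x = 0) :
    p ∈ ((minpoly ℤ x).coeff 0).natAbs.primeFactors := by
  have hi : IsIntegral ℤ x := Algebra.IsIntegral.isIntegral x
  have h0 : (minpoly ℤ x).coeff 0 ≠ 0 := BIG_c0 E x hx
  have h1 : Polynomial.aeval x (minpoly ℤ x) = 0 := minpoly.aeval ℤ x
  have h2 := congrArg φ h1
  rw [Polynomial.aeval_def, Polynomial.hom_eval₂, h, Polynomial.eval₂_at_zero, map_zero] at h2
  have h3 : (((minpoly ℤ x).coeff 0 : ℤ) : κ) = 0 := by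
    rw [← h2]
    simp
  rw [CharP.intCast_eq_zero_iff κ p] at h3
  rw [Nat.mem_primeFactors]
  exact ⟨hp, Int.natCast_dvd.mp h3, Int.natAbs_ne_zero.mpr h0⟩

/-! ## Powers of two by two matrices -/

theorem BIG_Uk {R R' : Type} [CommRing R] [CommRing R'] (f : R →+* R') (t d : R) (k : ℕ) :
    f (Uk t d k) = Uk (f t) (f d) k := by
  induction k using Nat.twoStepInduction with
  | zero => show f 0 = 0; exact map_zero f
  | one => show f 1 = 1; exact map_one f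
  | more k h1 h2 =>
    show f (t * Uk t d (k + 1) - d * Uk t d k) = f t * Uk (f t) (f d) (k + 1) - f d * Uk (f t) (f d) k
    rw [map_sub, map_mul, map_mul, h1, h2]

theorem BIG_sq {R : Type} [CommRing R] (A : Matrix (Fin 2) (Fin 2) R) : A * A = A.trace • A - A.det • (1 : Matrix (Fin 2) (Fin 2) R) := by
  ext i j
  fin_cases i <;> fin_cases j <;>
    simp [Matrix.mul_apply, Fin.sum_univ_two, Matrix.trace_fin_two, Matrix.det_fin_two] <;> ring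

theorem BIG_pow {R : Type} [CommRing R] (A : Matrix (Fin 2) (Fin 2) R) (k : ℕ) :
    A ^ (k + 1) = Uk A.trace A.det (k + 1) • A - (A.det * Uk A.trace A.det k) • (1 : Matrix (Fin 2) (Fin 2) R) := by
  induction k with
  | zero =>
    have e1 : Uk A.trace A.det (0 + 1) = 1 := rfl
    have e2 : Uk A.trace A.det 0 = 0 := rfl
    rw [e1, e2, mul_zero, zero_smul, one_smul, sub_zero, zero_add, pow_one]
  | succ k ih =>
    have e1 : Uk A.trace A.det (k + 1 + 1) = A.trace * Uk A.trace A.det (k + 1) - A.det * Uk A.trace A.det k := rfl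
    rw [pow_succ, ih, sub_mul, Matrix.smul_mul, BIG_sq, Matrix.smul_mul, one_mul, e1, smul_sub, smul_smul, smul_smul, sub_smul,
      mul_comm (Uk A.trace A.det (k + 1)) A.trace, mul_comm (Uk A.trace A.det (k + 1)) A.det]
    abel

theorem BIG_sc {R : Type} [Field R] (A : Matrix (Fin 2) (Fin 2) R) (k : ℕ) (hk : 1 ≤ k) (hU : Uk A.trace A.det k ≠ 0) (c : R)
    (h : A ^ k = c • (1 : Matrix (Fin 2) (Fin 2) R)) : dsc A = 0 := by
  obtain ⟨m, rfl⟩ : ∃ m, k = m + 1 := ⟨k - 1, by omega⟩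
  rw [BIG_pow] at h
  have h00 := congrFun (congrFun h 0) 0
  have h11 := congrFun (congrFun h 1) 1
  have h01 := congrFun (congrFun h 0) 1
  simp at h00 h11 h01
  have e1 : A 0 1 = 0 := by
    rcases h01 with h | h
    · exact absurd h hU
    · exact h
  have e2 : Uk A.trace A.det (m + 1) * (A 0 0 - A 1 1) = 0 := by
    rw [mul_sub]
    linear_combination h00 - h11
  have e3 : A 0 0 - A 1 1 = 0 := by
    rcases mul_eq_zero.mp e2 with h | h
    · exact absurd h hU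
    · exact h
  unfold dsc
  rw [Matrix.trace_fin_two, Matrix.det_fin_two, e1]
  linear_combination (A 0 0 - A 1 1) * e3

/-! ## Density -/

theorem BIG_dens {Γ Place : Type} [Group Γ] [TopologicalSpace Γ] [IsTopologicalGroup Γ] (frob : Place → Set Γ) (nv : Place → ℕ) (T : Set Place)
    (p : ℕ) (hp : p.Prime) (κ : Type) [Field κ] (S : Γ →* Matrix (Fin 2) (Fin 2) κ) (hfr : IsFrob frob nv) (hT : T.Finite)
    (hker : IsOpen (S.ker : Set Γ)) (g : Γ) : ∃ v ∉ T, ¬ p ∣ nv v ∧ ∃ s ∈ frob v, S s = S g := by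
  have hO : IsOpen {x : Γ | S x = S g} := by
    have h1 : {x : Γ | S x = S g} = (fun x => g⁻¹ * x) ⁻¹' (S.ker : Set Γ) := by
      ext x
      constructor
      · intro h
        show S (g⁻¹ * x) = 1
        rw [map_mul, (show S x = S g from h), ← map_mul, inv_mul_cancel, map_one]
      · intro h
        have h2 : S (g⁻¹ * x) = 1 := h
        show S x = S g
        have h3 : S (g * (g⁻¹ * x)) = S g := by rw [map_mul, h2, mul_one]
        rwa [mul_inv_cancel_left] at h3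
    rw [h1]
    exact hker.preimage (continuous_const_mul g⁻¹)
  obtain ⟨v, -, hv, s, hs, -, hsO⟩ := hfr.dense {x : Γ | S x = S g} (T ∪ {v | p ∣ nv v}) hO ⟨g, rfl, Subgroup.mem_top g⟩
    (hT.union (hfr.finite p hp))
  refine ⟨v, fun h => hv (Or.inl h), fun h => hv (Or.inr h), s, hs, hsO⟩

/-- one prime: the consequence of Dickson's theorem -/
theorem BIG_step (hDIC : DIC_stmt) {Γ Place E : Type} [Group Γ] [TopologicalSpace Γ] [IsTopologicalGroup Γ] [CompactSpace Γ] [Field E] [NumberField E]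
    (frob : Place → Set Γ) (nv : Place → ℕ) (T : Set Place) (Q : Place → (𝓞 E)[X]) (p : ℕ) [Fact p.Prime] (F κ : Type)
    [NormedField F] [NormedAlgebra ℚ_[p] F] [Field κ] [IsAlgClosed κ] [CharP κ p] (ι : E →+* F) (red : F → κ)
    (ρ : Γ →* Matrix (Fin 2) (Fin 2) F) (S : Γ →* Matrix (Fin 2) (Fin 2) κ) (hfr : IsFrob frob nv) (hT : T.Finite)
    (hpol : HasPolys frob nv T p Q ι ρ) (hint : ∀ g x y, ‖ρ g x y‖ ≤ 1) (hred : IsRed red) (hS : ∀ g, S g = (ρ g).map red)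
    (φ : 𝓞 E →+* κ) (hφ : ∀ x : 𝓞 E, red (ι (x : E)) = φ x ∧ ‖ι (x : E)‖ ≤ 1) (hφp : ∀ x, φ x ^ p = φ x) (h2 : p ≠ 2)
    (v₀ : Place) (hv₀ : v₀ ∉ T) (hn₀ : ¬ p ∣ nv v₀) (hd₀ : φ (dQ (Q v₀)) ≠ 0)
    (hU : ∀ k : ℕ, 1 ≤ k → k ≤ 60 → φ (Uk (-(Q v₀).coeff 1) ((Q v₀).coeff 0) k) ≠ 0)
    (hnb : ¬ Big p S) (v v' : Place) (hv : v ∉ T) (hv' : v' ∉ T) (hn : ¬ p ∣ nv v) (hn' : ¬ p ∣ nv v')
    (h1 : φ ((Q v).coeff 1) ≠ 0) (h1' : φ ((Q v').coeff 1) ≠ 0) :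
    ∃ m : ℕ, φ (dQ (Q v) * dQ (Q v')) = (m : κ) ^ 2 := by
  have hp : p.Prime := Fact.out
  have hker : IsOpen (S.ker : Set Γ) := RDX.2.1 red hred ρ hpol.cont hint S hS
  have hfi : S.ker.FiniteIndex := by
    have := Subgroup.quotient_finite_of_isOpen S.ker hker
    exact Subgroup.finiteIndex_of_finite_quotient
  have htd : ∀ w ∉ T, ¬ p ∣ nv w → ∀ s ∈ frob w, (S s).trace = φ (-(Q w).coeff 1) ∧ (S s).det = φ ((Q w).coeff 0) := by
    intro w hw hnw s hs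
    have a1 := RDP.1 p ι red hred φ hφ (ρ s) (hint s) (Q w) (hpol.charpoly w hw hnw s hs)
    rw [← hS s] at a1
    obtain ⟨a2, a3⟩ := trace_det_of_charpoly (S s) _ a1
    rw [Polynomial.coeff_map] at a2 a3
    rw [map_neg]
    exact ⟨a2, a3⟩
  have hds : ∀ w ∉ T, ¬ p ∣ nv w → ∀ s ∈ frob w, dsc (S s) = φ (dQ (Q w)) := by
    intro w hw hnw s hs
    obtain ⟨a2, a3⟩ := htd w hw hnw s hs
    unfold dsc dQ
    rw [a2, a3, map_sub, map_mul, map_pow, map_neg, neg_sq, map_ofNat]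
  have hpf : ∀ g, ∃ a b : ZMod p, ZMod.castHom (dvd_refl p) κ a = (S g).trace ∧ ZMod.castHom (dvd_refl p) κ b = (S g).det := by
    intro g
    obtain ⟨w, hw, hnw, s, hs, hsg⟩ := BIG_dens frob nv T p hp κ S hfr hT hker g
    obtain ⟨a2, a3⟩ := htd w hw hnw s hs
    rw [hsg] at a2 a3
    obtain ⟨a, ha⟩ := BIG_pf p κ _ (hφp (-(Q w).coeff 1))
    obtain ⟨b, hb⟩ := BIG_pf p κ _ (hφp ((Q w).coeff 0))
    exact ⟨a, b, by rw [ha, a2], by rw [hb, a3]⟩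
  obtain ⟨s₀, hs₀⟩ := hfr.nonempty v₀
  have hg₀ : ∃ g₀, ∀ k : ℕ, 1 ≤ k → k ≤ 60 → ∀ c : κ, (S g₀) ^ k ≠ c • (1 : Matrix (Fin 2) (Fin 2) κ) := by
    refine ⟨s₀, fun k hk hk' c hc => ?_⟩
    obtain ⟨a2, a3⟩ := htd v₀ hv₀ hn₀ s₀ hs₀
    have a4 : Uk (S s₀).trace (S s₀).det k ≠ 0 := by
      rw [a2, a3, ← BIG_Uk]
      exact hU k hk hk'
    have a5 := BIG_sc (S s₀) k hk a4 c hc
    rw [hds v₀ hv₀ hn₀ s₀ hs₀] at a5
    exact hd₀ a5
  obtain ⟨s, hs⟩ := hfr.nonempty v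
  obtain ⟨s', hs'⟩ := hfr.nonempty v'
  have ht : (S s).trace ≠ 0 := by
    rw [(htd v hv hn s hs).1, map_neg]
    exact neg_ne_zero.mpr h1
  have ht' : (S s').trace ≠ 0 := by
    rw [(htd v' hv' hn' s' hs').1, map_neg]
    exact neg_ne_zero.mpr h1'
  obtain ⟨c, hc⟩ := hDIC p κ Γ S h2 hfi hpf hg₀ hnb s s' ht ht'
  refine ⟨c.val, ?_⟩
  rw [map_mul, ← hds v hv hn s hs, ← hds v' hv' hn' s' hs', hc]
  congr 1
  rw [← map_natCast (ZMod.castHom (dvd_refl p) κ) c.val, ZMod.natCast_zmod_val]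

/-- the contradiction -/
theorem BIG_fin (R : Type) [CommRing R] (P : Ideal R) (hP : P.IsPrime) (p : ℕ) (hp : p.Prime) (h2 : p ≠ 2) (hpP : (p : R) ∈ P) (y : R) (m : ℕ)
    (h1 : y ^ 2 - (m : R) ^ 2 ∈ P) (h3 : -y - y ^ p ∈ P) : y ∈ P := by
  have := Fact.mk hp
  have hodd : Odd p := hp.odd_of_ne_two h2
  have hq : ∀ x : R, x ∈ P ↔ Ideal.Quotient.mk P x = 0 := fun x => Ideal.Quotient.eq_zero_iff_mem.symm
  have : IsDomain (R ⧸ P) := Ideal.Quotient.isDomain P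
  have hp0 : ((p : ℕ) : R ⧸ P) = 0 := by
    have := (hq _).mp hpP
    rwa [map_natCast] at this
  have hm : ((m : ℕ) : R ⧸ P) ^ p = m := by
    have h4 : ((p : ℕ) : ℤ) ∣ (m : ℤ) ^ p - m := by
      rw [← CharP.intCast_eq_zero_iff (ZMod p) p]
      push_cast
      rw [ZMod.pow_card, sub_self]
    obtain ⟨c, hc⟩ := h4
    have h5 := congrArg (Int.cast : ℤ → R ⧸ P) hc
    push_cast at h5
    rw [hp0, zero_mul, sub_eq_zero] at h5
    exact h5
  obtain ⟨z, hz⟩ : ∃ z, z = Ideal.Quotient.mk P y := ⟨_, rfl⟩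
  have h1' : z ^ 2 - ((m : ℕ) : R ⧸ P) ^ 2 = 0 := by
    have := (hq _).mp h1
    rw [map_sub, map_pow, map_pow, map_natCast] at this
    rw [hz]
    exact this
  have h3' : -z - z ^ p = 0 := by
    have := (hq _).mp h3
    rw [map_sub, map_neg, map_pow] at this
    rw [hz]
    exact this
  have h6 : z ^ p = z := by
    have h7 : (z - (m : R ⧸ P)) * (z + (m : R ⧸ P)) = 0 := by
      rw [← h1']
      ring
    rcases mul_eq_zero.mp h7 with h | h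
    · rw [sub_eq_zero.mp h]
      exact hm
    · rw [eq_neg_of_add_eq_zero_left h, hodd.neg_pow, hm]
  rw [h6] at h3'
  have h8 : (2 : R ⧸ P) * z = 0 := by linear_combination -h3'
  have h9 : (2 : R ⧸ P) ≠ 0 := by
    intro h
    obtain ⟨k, hk⟩ := hodd
    rw [hk] at hp0
    push_cast at hp0
    rw [h, zero_mul, zero_add] at hp0
    exact one_ne_zero hp0
  rw [hq, ← hz]
  exact (mul_eq_zero.mp h8).resolve_left h9

/-- the number field side -/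
theorem BIG_num (hEMB : EMB_stmt) (E M : Type) [Field E] [NumberField E] [Field M] [NumberField M] [IsGalois ℚ M] (σ : M ≃ₐ[ℚ] M)
    (hne : Nonempty (E →+* M)) (hσ : ∀ (τ : E →+* M) (x : E), σ (τ x) = τ x) (p : ℕ) (hp : p.Prime) (h2 : p ≠ 2) (P : Ideal (𝓞 M)) (hP : P.IsPrime)
    (hPp : Ideal.absNorm (P.under (𝓞 ℚ)) = p) (hfr : IsArithFrobAt (𝓞 ℚ) σ P) (κ : Type) [Field κ] (hpκ : (p : κ) = 0) (φ : 𝓞 E →+* κ) :
    (∀ x, φ x ^ p = φ x) ∧ ∃ τ : E →+* M, ∀ (δ δ' : 𝓞 E) (y : 𝓞 M) (m : ℕ), y ^ 2 = RingOfIntegers.mapRingHom τ (δ * δ') → σ (y : M) = -(y : M) →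
      φ (δ * δ') = (m : κ) ^ 2 → φ (δ * δ') = 0 := by
  have hpP : ((p : ℕ) : 𝓞 M) ∈ P := by
    have h1 : ((Ideal.absNorm (P.under (𝓞 ℚ)) : ℕ) : 𝓞 ℚ) ∈ P.under (𝓞 ℚ) := Ideal.absNorm_mem _
    rw [hPp, Ideal.under_def, Ideal.mem_comap, map_natCast] at h1
    exact h1
  have hcard : Nat.card (𝓞 ℚ ⧸ P.under (𝓞 ℚ)) = p := by
    rw [← hPp, Ideal.absNorm_apply]
    rfl
  have hF : ∀ x : 𝓞 M, σ • x - x ^ p ∈ P := by
    intro x
    have h1 := hfr x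
    rw [hcard] at h1
    exact h1
  obtain ⟨τ, hτ⟩ := hEMB E M hne p κ φ P hp hpκ hP hpP
  refine ⟨?_, τ, ?_⟩
  · intro x
    have h1 := hF (RingOfIntegers.mapRingHom τ x)
    have h3 : σ • (RingOfIntegers.mapRingHom τ x) = RingOfIntegers.mapRingHom τ x := by
      apply RingOfIntegers.ext
      show σ (τ x) = τ x
      exact hσ τ x
    rw [h3, ← map_pow, ← map_sub, hτ, map_sub, map_pow, sub_eq_zero] at h1
    exact h1.symm
  · intro δ δ' y m hy hσy hm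
    have h1 := hF y
    have h3 : σ • y = -y := by
      apply RingOfIntegers.ext
      show σ (y : M) = -(y : M)
      exact hσy
    rw [h3] at h1
    have h4 : y ^ 2 - (m : 𝓞 M) ^ 2 ∈ P := by
      have h5 : RingOfIntegers.mapRingHom τ (δ * δ' - (m : 𝓞 E) ^ 2) ∈ P := by
        rw [hτ, map_sub, map_pow, map_natCast, hm, sub_self]
      rw [map_sub, map_pow, map_natCast, ← hy] at h5
      exact h5
    have h6 := BIG_fin (𝓞 M) P hP p hp h2 hpP y m h4 h1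
    rw [← hτ, ← hy]
    exact Ideal.pow_mem_of_mem P h6 2 (by norm_num)

theorem BIG (hCHEB : CHEB_stmt) (hGRE : GRE_stmt) (hSQF : SQF_stmt) (hORD : ORD_stmt) (hEMB : EMB_stmt) (hDIC : DIC_stmt) : BIG_stmt := by
  intro Γ Place E J _ _ _ _ _ _ frob nv T Q p _ F Ω κ _ _ _ _ _ _ _ _ _ ι red ρ S hfr hF
  suffices hmain : ∀ B : Finset ℕ, ∃ j, p j ∉ B ∧ Big (p j) (S j) by
    intro hfin
    obtain ⟨j, hj1, hj2⟩ := hmain (hfin.toFinset.image p)
    exact hj1 (Finset.mem_image.mpr ⟨j, hfin.mem_toFinset.mpr hj2, rfl⟩)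
  intro B
  obtain ⟨M, _, _, _, σ, hne, hσ, hτ⟩ := hGRE E {δ | ∃ v, v ∉ T ∧ (Q v).coeff 1 ≠ 0 ∧ δ = dQ (Q v)} (fun L _ _ i => by
    obtain ⟨v, hv, h1, h2⟩ := hSQF frob nv T Q p F Ω κ ι red ρ S hfr hF L i
    exact ⟨_, ⟨v, hv, h1, rfl⟩, h2⟩)
  obtain ⟨v₀, hv₀, hd₀, hU₀⟩ := hORD frob nv T Q p F Ω κ ι red ρ S hfr hF
  choose δ hδ δ' hδ' hδ0 hδ0' y hy hσy using hτ
  choose v hv hc hδv using hδ
  choose v' hv' hc' hδv' using hδ'
  -- bad primes
  obtain ⟨bad, hbad⟩ : ∃ bad : 𝓞 E → Finset ℕ, bad = fun x => ((minpoly ℤ x).coeff 0).natAbs.primeFactors := ⟨_, rfl⟩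
  obtain ⟨BB, hBB⟩ : ∃ BB : Finset ℕ, BB = B ∪ {2} ∪ hF.primes.toFinset ∪ (nv v₀).primeFactors ∪ bad (dQ (Q v₀)) ∪
      (Finset.range 61).biUnion (fun k => bad (Uk (-(Q v₀).coeff 1) ((Q v₀).coeff 0) k)) ∪
      (Finset.univ : Finset (E →+* M)).biUnion (fun τ => (nv (v τ)).primeFactors ∪ (nv (v' τ)).primeFactors ∪ bad ((Q (v τ)).coeff 1) ∪
        bad ((Q (v' τ)).coeff 1) ∪ bad (δ τ) ∪ bad (δ' τ)) := ⟨_, rfl⟩
  obtain ⟨p₀, P, hp₀, hpS, hP, hPp, hfrob⟩ := hCHEB ℚ M σ BB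
  rw [hBB] at hpS
  simp only [Finset.mem_union, Finset.mem_singleton, Finset.mem_biUnion, Finset.mem_univ, true_and, not_or, not_exists, Set.Finite.mem_toFinset,
    Set.mem_ofPred_eq, not_and, Finset.mem_range] at hpS
  obtain ⟨⟨⟨⟨⟨⟨hpB, hp2⟩, hpj⟩, hpn₀⟩, hpd₀⟩, hpU⟩, hpτ⟩ := hpS
  obtain ⟨j, hj⟩ : ∃ j, p j = p₀ := by
    by_contra hcon
    push Not at hcon
    exact hpj hp₀ (fun h => hcon h)
  subst hj
  refine ⟨j, hpB, ?_⟩
  by_contra hnb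
  obtain ⟨φ, hφ⟩ := RDX.1 (p j) (ι j) (red j) (hF.isRed j)
  obtain ⟨hφp, τ, hfin⟩ := BIG_num hEMB E M σ hne hσ (p j) hp₀ hp2 P hP hPp hfrob (κ j) (CharP.cast_eq_zero (κ j) (p j)) φ
  have hb : ∀ x : 𝓞 E, x ≠ 0 → p j ∉ bad x → φ x ≠ 0 := by
    intro x hx hx2 h0
    apply hx2
    rw [hbad]
    exact BIG_bad E x hx (p j) hp₀ (κ j) φ h0
  have hnn : ∀ w, p j ∉ (nv w).primeFactors → ¬ p j ∣ nv w := by
    intro w hw h
    exact hw (Nat.mem_primeFactors.mpr ⟨hp₀, h, hfr.norm_ne_zero w⟩)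
  obtain ⟨⟨⟨⟨⟨t1, t2⟩, t3⟩, t4⟩, t5⟩, t6⟩ := hpτ τ
  obtain ⟨m, hm⟩ := BIG_step hDIC frob nv T Q (p j) (F j) (κ j) (ι j) (red j) (ρ j) (S j) hfr hF.finite (hF.polys j) (hF.integral j) (hF.isRed j)
    (hF.reduction j) φ hφ hφp hp2 v₀ hv₀ (hnn v₀ hpn₀) (hb _ hd₀ hpd₀) (fun k hk hk' => hb _ (hU₀ k hk hk') (hpU k (by omega))) hnb (v τ) (v' τ)
    (hv τ) (hv' τ) (hnn _ t1) (hnn _ t2) (hb _ (hc τ) t3) (hb _ (hc' τ) t4)
  rw [← hδv τ, ← hδv' τ] at hm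
  have h0 := hfin (δ τ) (δ' τ) (y τ) m (hy τ) (hσy τ) hm
  rw [map_mul] at h0
  rcases mul_eq_zero.mp h0 with h | h
  · exact hb _ (hδ0 τ) t5 h
  · exact hb _ (hδ0' τ) t6 h

end Pool.Agent.LB
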